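import Pool.Agent.H91.LX.Fil
import Pool.Agent.H74.LA.Fix

/-!
# CH-ALL, LTEX: `[n]` modulo degree `d + 1` (helper91)
-/

open PowerSeries

namespace Pool.Agent.H91.LX

open Pool.Agent.H13.CA
open Pool.Agent.H49.LX (c2 EqD c2_left c2_right)

variable {R : Type*} [CommRing R]

private theorem cu (f : R⟦X⟧) (i : ℕ) : MvPowerSeries.coeff (Finsupp.single () i) f = coeff i f := rfl

private theorem deg_u (e : Unit →₀ ℕ) : e = Finsupp.single () e.degree := by
  ext
  simp [Finsupp.degree_eq_sum]

theorem J_unit {n : ℕ} {f : R⟦X⟧} :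
    (f : MvPowerSeries Unit R) ∈ J Unit R n ↔ ∀ i, i < n → coeff i f = 0 := by
  constructor
  · intro h i hi
    exact h (Finsupp.single () i) (by
      rw [Finsupp.degree_single]
      exact hi)
  · intro h e he
    rw [deg_u e]
    exact h _ he

private theorem D_sum (D : MvPowerSeries (Fin 2) R) {d : ℕ} (h0 : c2 D 0 d = 0)
    (h1 : c2 D d 0 = 0) (n : ℕ) :
    PowerSeries.coeff d (MvPowerSeries.subst ![(C (n : R) * X : R⟦X⟧), X] D : R⟦X⟧) =
      ∑ i ∈ Finset.Ioo 0 d, (n : R) ^ i * c2 D i (d - i) := by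
  classical
  have hX : (X : R⟦X⟧) ∈ J Unit R 1 := J_one PowerSeries.constantCoeff_X
  have hnX : (C (n : R) * X : R⟦X⟧) ∈ J Unit R 1 := Ideal.mul_mem_left _ _ hX
  have hc : ∀ i j : ℕ, MvPowerSeries.coeff (Finsupp.single () d)
      ((C (n : R) * X : R⟦X⟧) ^ i * (X : R⟦X⟧) ^ j) = if i + j = d then (n : R) ^ i else 0 := by
    intro i j
    have h2 : (C (n : R) * X : R⟦X⟧) ^ i * (X : R⟦X⟧) ^ j = C ((n : R) ^ i) * X ^ (i + j) := by
      rw [mul_pow, map_pow, pow_add]
      ring
    rw [h2]
    have h3 : PowerSeries.coeff d (C ((n : R) ^ i) * X ^ (i + j) : R⟦X⟧) =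
        if i + j = d then (n : R) ^ i else 0 := by
      rw [PowerSeries.coeff_C_mul, PowerSeries.coeff_X_pow]
      by_cases h4 : i + j = d
      · rw [if_pos h4.symm, if_pos h4, mul_one]
      · rw [if_neg (fun h5 => h4 h5.symm), if_neg h4, mul_zero]
    exact h3
  rw [PowerSeries.coeff, coeff_pair (hs_J hnX) (hs_J hX)]
  have hinj : Set.InjOn (fun i : ℕ => (Finsupp.single 0 i + Finsupp.single 1 (d - i) : Fin 2 →₀ ℕ))
      (Finset.Ioo 0 d : Finset ℕ) := by
    intro i _ j _ hij
    have h2 := DFunLike.congr_fun hij 0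
    simpa using h2
  rw [finsum_eq_sum_of_support_subset
    (s := (Finset.Ioo 0 d).image fun i => Finsupp.single 0 i + Finsupp.single 1 (d - i)),
    Finset.sum_image hinj]
  · refine Finset.sum_congr rfl fun i hi => ?_
    rw [Finset.mem_Ioo] at hi
    have h2 : (Finsupp.single 0 i + Finsupp.single 1 (d - i) : Fin 2 →₀ ℕ) 0 = i := by simp
    have h3 : (Finsupp.single 0 i + Finsupp.single 1 (d - i) : Fin 2 →₀ ℕ) 1 = d - i := by simp
    rw [h2, h3, hc, if_pos (by omega), mul_comm]
    rfl
  · intro e he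
    rw [Function.mem_support] at he
    rw [hc] at he
    by_cases h2 : e 0 + e 1 = d
    · rw [Finset.coe_image]
      refine ⟨e 0, ?_, ?_⟩
      · rw [Finset.coe_Ioo, Set.mem_Ioo]
        constructor
        · rw [Nat.pos_iff_ne_zero]
          intro h3
          apply he
          rw [coeff_eq_c2, h3]
          have h4 : e 1 = d := by omega
          rw [h4, h0, zero_mul]
        · have h3 : e 0 ≠ d := by
            intro h4
            apply he
            rw [coeff_eq_c2, h4]
            have h5 : e 1 = 0 := by omega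
            rw [h5, h1, zero_mul]
          omega
      · ext s
        fin_cases s
        · simp
        · simp
          omega
    · exact absurd (by rw [if_neg h2, mul_zero]) he

theorem mul_cmp {G H : FormalGroup R} {d : ℕ} (hd : 2 ≤ d)
    (h : EqD d G.toPowerSeries H.toPowerSeries) (n : ℕ) :
    (∀ i, i < d → coeff i (mulSer G n) = coeff i (mulSer H n)) ∧
      coeff d (mulSer G n) - coeff d (mulSer H n) =
        ∑ s ∈ Finset.range n, ∑ i ∈ Finset.Ioo 0 d,
          (s : R) ^ i * (c2 G.toPowerSeries i (d - i) - c2 H.toPowerSeries i (d - i)) := by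
  obtain ⟨D, hD⟩ : ∃ D : MvPowerSeries (Fin 2) R, D = G.toPowerSeries - H.toPowerSeries := ⟨_, rfl⟩
  have hDJ : D ∈ J (Fin 2) R d := by
    intro e he
    rw [deg2] at he
    rw [hD, coeff_eq_c2, c2_sub, h _ _ he, sub_self]
  have hD' : G.toPowerSeries - H.toPowerSeries ∈ J (Fin 2) R d := by
    rw [← hD]
    exact hDJ
  have hX : (X : R⟦X⟧) ∈ J Unit R 1 := J_one PowerSeries.constantCoeff_X
  induction n with
  | zero =>
    refine ⟨fun i _ => rfl, ?_⟩
    rw [Finset.sum_range_zero]
    exact sub_self _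
  | succ n ih =>
    obtain ⟨ih1, ih2⟩ := ih
    have hA : (mulSer G n : MvPowerSeries Unit R) ∈ J Unit R 1 := J_one (cc_mulSer G n)
    have hB : (mulSer H n : MvPowerSeries Unit R) ∈ J Unit R 1 := J_one (cc_mulSer H n)
    have hnX : (C (n : R) * X : R⟦X⟧) ∈ J Unit R 1 := Ideal.mul_mem_left _ _ hX
    have hAB : (mulSer G n - mulSer H n : R⟦X⟧) ∈ J Unit R d := by
      rw [J_unit]
      intro i hi
      rw [map_sub, ih1 i hi, sub_self]
    have hAn : (mulSer G n - C (n : R) * X : R⟦X⟧) ∈ J Unit R 2 := by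
      rw [J_unit]
      intro i hi
      have h1 : i = 0 ∨ i = 1 := by omega
      rcases h1 with rfl | rfl
      · rw [PowerSeries.coeff_zero_eq_constantCoeff_apply, map_sub, cc_mulSer, map_mul,
          PowerSeries.constantCoeff_X]
        ring
      · rw [map_sub, H74.LA.coeff_one_mulSer, PowerSeries.coeff_C_mul, PowerSeries.coeff_one_X]
        ring
    have hz : ∀ m, (X - X : R⟦X⟧) ∈ J Unit R m := by
      intro m
      rw [sub_self]
      exact Ideal.zero_mem _
    have e1 := cmp_two hd hD' hA hX hB hX hnX hX hAn (hz 2) hAB (hz d)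
    rw [← hD] at e1
    have hG : MvPowerSeries.subst ![(mulSer G n : MvPowerSeries Unit R), (X : R⟦X⟧)] G.toPowerSeries =
      mulSer G (n + 1) := rfl
    have hH : MvPowerSeries.subst ![(mulSer H n : MvPowerSeries Unit R), (X : R⟦X⟧)] H.toPowerSeries =
      mulSer H (n + 1) := rfl
    rw [hG, hH] at e1
    have e2 := J_unit.mp e1
    have e3 := J_unit.mp (subst_mem hDJ hnX hX)
    constructor
    · intro i hi
      have h1 := e2 i (by omega)
      rw [map_sub, map_sub, map_add, map_add, e3 i hi, map_sub, ih1 i hi, map_sub] at h1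
      have h2 : ∀ a b c d : R, a - b - (0 + (c - c) + (d - d)) = 0 → a = b := by
        intro a b c d h3
        have h4 : a - b - (0 + (c - c) + (d - d)) = a - b := by ring
        rw [h4, sub_eq_zero] at h3
        exact h3
      exact h2 _ _ _ _ h1
    · have h1 := e2 d (by omega)
      rw [map_sub, map_sub, map_add, map_add, map_sub, ih2, map_sub] at h1
      rw [Finset.sum_range_succ]
      have hs := D_sum D (by
          rw [hD, c2_sub, c2_right G hd, c2_right H hd, sub_self]) (by
          rw [hD, c2_sub, c2_left G hd, c2_left H hd, sub_self]) n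
      have hs2 : ∑ i ∈ Finset.Ioo 0 d, (n : R) ^ i * c2 D i (d - i) = ∑ i ∈ Finset.Ioo 0 d,
          (n : R) ^ i * (c2 G.toPowerSeries i (d - i) - c2 H.toPowerSeries i (d - i)) := by
        refine Finset.sum_congr rfl fun i _ => ?_
        rw [hD, c2_sub]
      rw [hs2] at hs
      rw [hs] at h1
      have h2 : ∀ a b c d e : R, a - b - (c + d + (e - e)) = 0 → a - b = d + c := by
        intro a b c d e h3
        have h4 : a - b = (a - b - (c + d + (e - e))) + (d + c) := by ring
        rw [h4, h3, zero_add]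
      exact h2 _ _ _ _ _ h1

end Pool.Agent.H91.LX
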