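import Pool.Agent.H49.LX.Cmp

/-!
# CH-ALL, LTEX: the filtration by degree on power series, substitutions (helper91)
-/

open PowerSeries

namespace Pool.Agent.H91.LX

open Pool.Agent.H13.CA
open Pool.Agent.H49.LX (c2 EqD)

variable {R : Type*} [CommRing R] {σ : Type*}

/-! ### the filtration by degree -/

def J (σ R : Type*) [CommRing R] (n : ℕ) : Ideal (MvPowerSeries σ R) where
  carrier := {f | ∀ e : σ →₀ ℕ, e.degree < n → MvPowerSeries.coeff e f = 0}
  add_mem' := by
    intro f g hf hg e he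
    rw [map_add, hf e he, hg e he, add_zero]
  zero_mem' := by
    intro e _
    exact map_zero _
  smul_mem' := by
    intro c f hf e he
    classical
    rw [smul_eq_mul, MvPowerSeries.coeff_mul]
    refine Finset.sum_eq_zero fun u hu => ?_
    rw [Finset.HasAntidiagonal.mem_antidiagonal] at hu
    have h1 : u.1.degree + u.2.degree = e.degree := by
      rw [← hu, map_add]
    rw [hf u.2 (by omega), mul_zero]

theorem mem_J {n : ℕ} {f : MvPowerSeries σ R} :
    f ∈ J σ R n ↔ ∀ e : σ →₀ ℕ, e.degree < n → MvPowerSeries.coeff e f = 0 := Iff.rfl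

theorem J_mono {a b : ℕ} (h : a ≤ b) {f : MvPowerSeries σ R} (hf : f ∈ J σ R b) :
    f ∈ J σ R a := fun e he => hf e (lt_of_lt_of_le he h)

theorem J_zero (f : MvPowerSeries σ R) : f ∈ J σ R 0 := fun e he => absurd he (by omega)

theorem J_mul {a b : ℕ} {f g : MvPowerSeries σ R} (hf : f ∈ J σ R a) (hg : g ∈ J σ R b) :
    f * g ∈ J σ R (a + b) := by
  classical
  intro e he
  rw [MvPowerSeries.coeff_mul]
  refine Finset.sum_eq_zero fun u hu => ?_
  rw [Finset.HasAntidiagonal.mem_antidiagonal] at hu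
  have h1 : u.1.degree + u.2.degree = e.degree := by
    rw [← hu, map_add]
  by_cases h2 : u.1.degree < a
  · rw [hf u.1 h2, zero_mul]
  · rw [hg u.2 (by omega), mul_zero]

theorem J_one {f : MvPowerSeries σ R} (hf : MvPowerSeries.constantCoeff f = 0) :
    f ∈ J σ R 1 := by
  intro e he
  have h1 : e = 0 := by
    rw [← Finsupp.degree_eq_zero_iff]
    omega
  rw [h1, MvPowerSeries.coeff_zero_eq_constantCoeff_apply, hf]

theorem J_pow {f : MvPowerSeries σ R} (hf : f ∈ J σ R 1) (i : ℕ) : f ^ i ∈ J σ R i := by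
  induction i with
  | zero => exact J_zero _
  | succ i ih =>
    rw [pow_succ]
    exact J_mul ih hf

theorem J_pow_sub {a a' : MvPowerSeries σ R} (ha : a ∈ J σ R 1) (ha' : a' ∈ J σ R 1)
    {m : ℕ} (hm : 1 ≤ m) (h : a - a' ∈ J σ R m) (i : ℕ) :
    a ^ i - a' ^ i ∈ J σ R (i + m - 1) := by
  induction i with
  | zero =>
    rw [pow_zero, pow_zero, sub_self]
    exact Ideal.zero_mem _
  | succ i ih =>
    have h1 : a ^ (i + 1) - a' ^ (i + 1) = a ^ i * (a - a') + (a ^ i - a' ^ i) * a' := by ring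
    rw [h1]
    refine Ideal.add_mem _ ?_ ?_
    · exact J_mono (by omega) (J_mul (J_pow ha i) h)
    · exact J_mono (by omega) (J_mul ih ha')

theorem J_prod_sub {a b a' b' : MvPowerSeries σ R} (ha : a ∈ J σ R 1) (hb : b ∈ J σ R 1)
    (ha' : a' ∈ J σ R 1) (hb' : b' ∈ J σ R 1) {m : ℕ} (hm : 1 ≤ m) (h : a - a' ∈ J σ R m)
    (h' : b - b' ∈ J σ R m) (i j : ℕ) :
    a ^ i * b ^ j - a' ^ i * b' ^ j ∈ J σ R (i + j + m - 1) := by
  have h1 : a ^ i * b ^ j - a' ^ i * b' ^ j = a ^ i * (b ^ j - b' ^ j) + (a ^ i - a' ^ i) * b' ^ j := by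
    ring
  rw [h1]
  refine Ideal.add_mem _ ?_ ?_
  · exact J_mono (by omega) (J_mul (J_pow ha i) (J_pow_sub hb hb' hm h' j))
  · exact J_mono (by omega) (J_mul (J_pow_sub ha ha' hm h i) (J_pow hb' j))

theorem coeff_pair {a b : MvPowerSeries σ R} (ha : PowerSeries.HasSubst a)
    (hb : PowerSeries.HasSubst b) (f : MvPowerSeries (Fin 2) R) (e : σ →₀ ℕ) :
    MvPowerSeries.coeff e (MvPowerSeries.subst ![a, b] f) =
      ∑ᶠ d : Fin 2 →₀ ℕ, MvPowerSeries.coeff d f * MvPowerSeries.coeff e (a ^ d 0 * b ^ d 1) := by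
  rw [MvPowerSeries.coeff_subst (hasSubst_pair ha hb)]
  refine finsum_congr fun d => ?_
  rw [smul_eq_mul, Finsupp.prod_fintype _ _ (fun i => pow_zero _), Fin.prod_univ_two]
  rfl

theorem hs_J {a : MvPowerSeries σ R} (ha : a ∈ J σ R 1) : PowerSeries.HasSubst a := by
  refine PowerSeries.HasSubst.of_constantCoeff_zero ?_
  rw [← MvPowerSeries.coeff_zero_eq_constantCoeff_apply]
  exact ha 0 (by simp)

theorem deg2 (d : Fin 2 →₀ ℕ) : d.degree = d 0 + d 1 := by
  rw [Finsupp.degree_eq_sum, Fin.sum_univ_two]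

theorem subst_mem {n : ℕ} {f : MvPowerSeries (Fin 2) R} (hf : f ∈ J (Fin 2) R n)
    {a b : MvPowerSeries σ R} (ha : a ∈ J σ R 1) (hb : b ∈ J σ R 1) :
    MvPowerSeries.subst ![a, b] f ∈ J σ R n := by
  intro e he
  rw [coeff_pair (hs_J ha) (hs_J hb)]
  refine finsum_eq_zero_of_forall_eq_zero fun d => ?_
  by_cases hd : d.degree < n
  · rw [hf d hd, zero_mul]
  · rw [J_mul (J_pow ha (d 0)) (J_pow hb (d 1)) e (by
      rw [← deg2]
      omega), mul_zero]

theorem subst_sub_mem {n m : ℕ} (hm : 1 ≤ m) {f : MvPowerSeries (Fin 2) R}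
    (hf : f ∈ J (Fin 2) R n) {a b a' b' : MvPowerSeries σ R} (ha : a ∈ J σ R 1) (hb : b ∈ J σ R 1)
    (ha' : a' ∈ J σ R 1) (hb' : b' ∈ J σ R 1) (h : a - a' ∈ J σ R m) (h' : b - b' ∈ J σ R m) :
    MvPowerSeries.subst ![a, b] f - MvPowerSeries.subst ![a', b'] f ∈ J σ R (n + m - 1) := by
  intro e he
  rw [map_sub, coeff_pair (hs_J ha) (hs_J hb), coeff_pair (hs_J ha') (hs_J hb'), sub_eq_zero]
  refine finsum_congr fun d => ?_
  by_cases hd : d.degree < n
  · rw [hf d hd, zero_mul, zero_mul]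
  · congr 1
    rw [← sub_eq_zero, ← map_sub]
    exact J_prod_sub ha hb ha' hb' hm h h' (d 0) (d 1) e (by
      rw [← deg2]
      omega)

theorem c2_sub (f g : MvPowerSeries (Fin 2) R) (i j : ℕ) :
    c2 (f - g) i j = c2 f i j - c2 g i j := map_sub _ _ _

theorem coeff_eq_c2 (f : MvPowerSeries (Fin 2) R) (e : Fin 2 →₀ ℕ) :
    MvPowerSeries.coeff e f = c2 f (e 0) (e 1) := by
  have h : Finsupp.single 0 (e 0) + Finsupp.single 1 (e 1) = e := by
    ext s
    fin_cases s <;> simp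
  rw [c2, h]

/-- `H = x + y` modulo degree two -/
theorem lin_mem (H : FormalGroup R) :
    H.toPowerSeries - (MvPowerSeries.X 0 + MvPowerSeries.X 1) ∈ J (Fin 2) R 2 := by
  classical
  intro e he
  rw [deg2] at he
  have h00 : MvPowerSeries.coeff (0 : Fin 2 →₀ ℕ) H.toPowerSeries = 0 := by
    rw [MvPowerSeries.coeff_zero_eq_constantCoeff_apply]
    exact H.zero_constantCoeff
  have hcase : e = 0 ∨ e = Finsupp.single 0 1 ∨ e = Finsupp.single 1 1 := by
    have h1 : (e 0 = 0 ∧ e 1 = 0) ∨ (e 0 = 1 ∧ e 1 = 0) ∨ (e 0 = 0 ∧ e 1 = 1) := by omega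
    rcases h1 with ⟨h2, h3⟩ | ⟨h2, h3⟩ | ⟨h2, h3⟩
    · left
      ext s
      fin_cases s
      · simpa using h2
      · simpa using h3
    · right
      left
      ext s
      fin_cases s
      · simpa using h2
      · simpa using h3
    · right
      right
      ext s
      fin_cases s
      · simpa using h2
      · simpa using h3
  rcases hcase with rfl | rfl | rfl
  · rw [map_sub, map_add, h00]
    simp
  · rw [map_sub, map_add, H.lin_coeff_X, MvPowerSeries.coeff_X, MvPowerSeries.coeff_X,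
      if_pos rfl, if_neg]
    · ring
    · intro h1
      have h2 := DFunLike.congr_fun h1 0
      simp at h2
  · rw [map_sub, map_add, H.lin_coeff_Y, MvPowerSeries.coeff_X, MvPowerSeries.coeff_X,
      if_pos rfl, if_neg]
    · ring
    · intro h1
      have h2 := DFunLike.congr_fun h1 0
      simp at h2

theorem F_J (G : FormalGroup R) {a b : MvPowerSeries σ R}
    (ha : a ∈ J σ R 1) (hb : b ∈ J σ R 1) :
    MvPowerSeries.subst ![a, b] G.toPowerSeries ∈ J σ R 1 :=
  subst_mem (J_one G.zero_constantCoeff) ha hb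

theorem subst_XX {a b : MvPowerSeries σ R}
    (ha : a ∈ J σ R 1) (hb : b ∈ J σ R 1) :
    MvPowerSeries.subst ![a, b] (MvPowerSeries.X 0 + MvPowerSeries.X 1 : MvPowerSeries (Fin 2) R) =
      a + b := by
  have h := hasSubst_pair (hs_J ha) (hs_J hb)
  rw [MvPowerSeries.subst_add h, MvPowerSeries.subst_X h, MvPowerSeries.subst_X h]
  rfl

theorem subst_sub' {a b : MvPowerSeries σ R}
    (ha : a ∈ J σ R 1) (hb : b ∈ J σ R 1) (f g : MvPowerSeries (Fin 2) R) :
    MvPowerSeries.subst ![a, b] (f - g) = MvPowerSeries.subst ![a, b] f -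
      MvPowerSeries.subst ![a, b] g := by
  have h := hasSubst_pair (hs_J ha) (hs_J hb)
  rw [← MvPowerSeries.coe_substAlgHom h, map_sub]

theorem F_lin (G : FormalGroup R) {a b : MvPowerSeries σ R}
    (ha : a ∈ J σ R 1) (hb : b ∈ J σ R 1) :
    MvPowerSeries.subst ![a, b] G.toPowerSeries - (a + b) ∈ J σ R 2 := by
  have h1 := subst_mem (lin_mem G) ha hb
  rw [subst_sub' ha hb, subst_XX ha hb] at h1
  exact h1

/-- the comparison of `G (a, b)` and `H (a', b')` -/
theorem cmp_two {G H : FormalGroup R} {d : ℕ} (hd : 2 ≤ d)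
    (h : G.toPowerSeries - H.toPowerSeries ∈ J (Fin 2) R d)
    {a b a' b' u v : MvPowerSeries σ R}
    (ha : a ∈ J σ R 1) (hb : b ∈ J σ R 1)
    (ha' : a' ∈ J σ R 1) (hb' : b' ∈ J σ R 1)
    (hu : u ∈ J σ R 1) (hv : v ∈ J σ R 1)
    (hau : a - u ∈ J σ R 2) (hbv : b - v ∈ J σ R 2)
    (haa : a - a' ∈ J σ R d) (hbb : b - b' ∈ J σ R d) :
    MvPowerSeries.subst ![a, b] G.toPowerSeries - MvPowerSeries.subst ![a', b'] H.toPowerSeries -
      (MvPowerSeries.subst ![u, v] (G.toPowerSeries - H.toPowerSeries) + (a - a') + (b - b')) ∈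
        J σ R (d + 1) := by
  have h1 := subst_sub_mem (by omega : 1 ≤ 2) h ha hb hu hv hau hbv
  have h2 := subst_sub_mem (by omega : 1 ≤ d) (lin_mem H) ha hb ha' hb' haa hbb
  rw [subst_sub' ha hb (H.toPowerSeries), subst_sub' ha' hb' (H.toPowerSeries), subst_XX ha hb,
    subst_XX ha' hb'] at h2
  rw [subst_sub' ha hb] at h1
  have h3 := Ideal.add_mem _ (J_mono (by omega : d + 1 ≤ d + 2 - 1) h1)
    (J_mono (by omega : d + 1 ≤ 2 + d - 1) h2)
  have h4 : ∀ p q r s t : MvPowerSeries σ R,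
      p - r - (t + (a - a') + (b - b')) = p - q - t + (q - (a + b) - (r - (a' + b'))) := by
    intro p q r s t
    ring
  rw [h4 _ (MvPowerSeries.subst ![a, b] H.toPowerSeries) _ 0 _]
  exact h3

end Pool.Agent.H91.LX
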